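import Pool.Agent.Helper87.FX.StC

/-!
# Project FX, chapter S, module DSK: the disc is diffeomorphic to the plane
-/

set_option autoImplicit false

namespace Pool.Agent.Helper60.FX

open Set Topology Metric Pool.Agent.Helper87.FX
open scoped ContDiff

theorem hDSK : StDSK := by
  have hr : (0 : ℝ) < 1 / 2 := by norm_num
  refine ⟨OpenPartialHomeomorph.univBall (0 : ℂ) (1 / 2),
    (OpenPartialHomeomorph.univBall (0 : ℂ) (1 / 2)).symm,
    OpenPartialHomeomorph.contDiff_univBall, ?_, OpenPartialHomeomorph.contDiffOn_univBall_symm,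
    ?_, ?_⟩
  · intro a
    have h := (OpenPartialHomeomorph.univBall (0 : ℂ) (1 / 2)).map_source (x := a) (by simp)
    rw [OpenPartialHomeomorph.univBall_target (0 : ℂ) hr, mem_ball_zero_iff] at h
    exact h
  · intro a
    exact (OpenPartialHomeomorph.univBall (0 : ℂ) (1 / 2)).left_inv (by simp)
  · intro b hb
    refine (OpenPartialHomeomorph.univBall (0 : ℂ) (1 / 2)).right_inv ?_
    rw [OpenPartialHomeomorph.univBall_target (0 : ℂ) hr, mem_ball_zero_iff]
    exact hb

end Pool.Agent.Helper60.FX
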