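import Pool.Agent.Helper84.FX.StT

/-!
# Project FX, chapter T, module GLU: the gluing lemma
-/

set_option autoImplicit false

namespace Pool.Agent.Helper60.FX

open Set Pool.Agent.Helper84.FX

open scoped Classical

/-! ### The cells of the big cube -/

/-- the cells contained in the cube `[0,N]^n` -/
private noncomputable def bigC (n N : ℕ) : Finset (Cel n) :=
  ((Fintype.piFinset fun _ : Fin n => Finset.Icc (0 : ℤ) (N : ℤ)) ×ˢ
    (Finset.univ : Finset (Finset (Fin n)))).filter fun c => ∀ i ∈ c.2, c.1 i + 1 ≤ (N : ℤ)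

private theorem mem_bigC {n N : ℕ} {c : Cel n} :
    c ∈ bigC n N ↔ (∀ i, 0 ≤ c.1 i ∧ c.1 i ≤ (N : ℤ)) ∧ ∀ i ∈ c.2, c.1 i + 1 ≤ (N : ℤ) := by
  simp [bigC, Fintype.mem_piFinset, Finset.mem_Icc]

/-- the cells contained in the boundary of `[0,N]^n` -/
private noncomputable def bigD (n N : ℕ) : Finset (Cel n) :=
  (bigC n N).filter fun c => ∃ i, i ∉ c.2 ∧ (c.1 i = 0 ∨ c.1 i = (N : ℤ))

private theorem mem_bigD {n N : ℕ} {c : Cel n} :
    c ∈ bigD n N ↔ c ∈ bigC n N ∧ ∃ i, i ∉ c.2 ∧ (c.1 i = 0 ∨ c.1 i = (N : ℤ)) := by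
  simp [bigD]

private theorem corner_lo {n : ℕ} (c : Cel n) : (fun i => (c.1 i : ℝ)) ∈ cel c := by
  intro i
  exact ⟨fun _ => ⟨le_refl _, by linarith⟩, fun _ => rfl⟩

private theorem corner_hi {n : ℕ} (c : Cel n) :
    (fun i => if i ∈ c.2 then (c.1 i : ℝ) + 1 else (c.1 i : ℝ)) ∈ cel c := by
  intro i
  refine ⟨fun h => ?_, fun h => ?_⟩
  · simp only [if_pos h]
    exact ⟨by linarith, le_refl _⟩
  · simp only [if_neg h]

private theorem face_out {n : ℕ} {c c' : Cel n} (h : cel c' ⊆ cel c) {i : Fin n} (hi : i ∉ c.2) :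
    i ∉ c'.2 ∧ c'.1 i = c.1 i := by
  have h1 := ((h (corner_lo c')) i).2 hi
  have h2 := ((h (corner_hi c')) i).2 hi
  have h3 : c'.1 i = c.1 i := by exact_mod_cast h1
  refine ⟨fun h4 => ?_, h3⟩
  simp only [if_pos h4] at h2
  have h5 : (c'.1 i : ℝ) = c.1 i := h1
  linarith

private theorem face_in {n : ℕ} {c c' : Cel n} (h : cel c' ⊆ cel c) {i : Fin n} (hi : i ∈ c.2) :
    c.1 i ≤ c'.1 i ∧ c'.1 i ≤ c.1 i + 1 ∧ (i ∈ c'.2 → c'.1 i ≤ c.1 i) := by
  have h1 := ((h (corner_lo c')) i).1 hi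
  have h2 := ((h (corner_hi c')) i).1 hi
  refine ⟨by exact_mod_cast h1.1, by exact_mod_cast h1.2, fun h4 => ?_⟩
  simp only [if_pos h4] at h2
  have h5 : (c'.1 i : ℝ) ≤ c.1 i := by linarith [h2.2]
  exact_mod_cast h5

private theorem cx_bigC (n N : ℕ) : Cx (bigC n N) := by
  intro c hc c' h
  rw [mem_bigC] at hc ⊢
  refine ⟨fun i => ?_, fun i hi' => ?_⟩
  · by_cases hi : i ∈ c.2
    · have h1 := face_in h hi
      have h2 := hc.1 i
      have h3 := hc.2 i hi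
      omega
    · rw [(face_out h hi).2]
      exact hc.1 i
  · by_cases hi : i ∈ c.2
    · have h1 := (face_in h hi).2.2 hi'
      have h3 := hc.2 i hi
      omega
    · exact absurd hi' (face_out h hi).1

private theorem cx_bigD (n N : ℕ) : Cx (bigD n N) := by
  intro c hc c' h
  rw [mem_bigD] at hc ⊢
  obtain ⟨hc, i, hi, hv⟩ := hc
  refine ⟨cx_bigC n N c hc c' h, i, (face_out h hi).1, ?_⟩
  rw [(face_out h hi).2]
  exact hv

private theorem bigD_sub (n N : ℕ) : bigD n N ⊆ bigC n N := fun _ hc => (mem_bigD.1 hc).1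

private theorem spt_bigC (n N : ℕ) :
    spt (bigC n N) = {v : Fin n → ℝ | ∀ i, 0 ≤ v i ∧ v i ≤ (N : ℝ)} := by
  ext v
  constructor
  · rintro ⟨c, hc, hv⟩ i
    rw [mem_bigC] at hc
    have h1 := hc.1 i
    have h2 : (0 : ℝ) ≤ (c.1 i : ℝ) := by exact_mod_cast h1.1
    have h3 : (c.1 i : ℝ) ≤ (N : ℝ) := by exact_mod_cast h1.2
    by_cases hi : i ∈ c.2
    · have h4 := (hv i).1 hi
      have h5 : (c.1 i : ℝ) + 1 ≤ (N : ℝ) := by exact_mod_cast hc.2 i hi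
      exact ⟨h2.trans h4.1, h4.2.trans h5⟩
    · rw [(hv i).2 hi]
      exact ⟨h2, h3⟩
  · intro hv
    refine ⟨(fun i => ⌊v i⌋, Finset.univ.filter fun i => (⌊v i⌋ : ℝ) ≠ v i), ?_, ?_⟩
    · rw [mem_bigC]
      refine ⟨fun i => ⟨Int.floor_nonneg.2 (hv i).1, ?_⟩, fun i hi => ?_⟩
      · have h1 : (⌊v i⌋ : ℝ) ≤ (N : ℝ) := (Int.floor_le (v i)).trans (hv i).2
        exact_mod_cast h1
      · simp only [Finset.mem_filter, Finset.mem_univ, true_and] at hi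
        have h1 : (⌊v i⌋ : ℝ) < (N : ℝ) :=
          (lt_of_le_of_ne (Int.floor_le (v i)) hi).trans_le (hv i).2
        have h2 : ⌊v i⌋ < (N : ℤ) := by exact_mod_cast h1
        show ⌊v i⌋ + 1 ≤ (N : ℤ)
        omega
    · intro i
      refine ⟨fun _ => ⟨Int.floor_le (v i), (Int.lt_floor_add_one (v i)).le⟩, fun hi => ?_⟩
      simp only [Finset.mem_filter, Finset.mem_univ, true_and, not_not] at hi
      exact hi.symm

private theorem spt_bigD (n N : ℕ) : spt (bigD n N) =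
    {v : Fin n → ℝ | (∀ i, 0 ≤ v i ∧ v i ≤ (N : ℝ)) ∧ ∃ i, v i = 0 ∨ v i = (N : ℝ)} := by
  ext v
  constructor
  · rintro ⟨c, hc, hv⟩
    have h0 : v ∈ spt (bigC n N) := ⟨c, bigD_sub n N hc, hv⟩
    rw [spt_bigC] at h0
    rw [mem_bigD] at hc
    obtain ⟨_, i, hi, h1⟩ := hc
    refine ⟨h0, i, ?_⟩
    rw [(hv i).2 hi]
    rcases h1 with h1 | h1
    · left; rw [h1]; simp
    · right; rw [h1]; simp
  · rintro ⟨hv, i, hi⟩
    have h0 : v ∈ spt (bigC n N) := by rw [spt_bigC]; exact hv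
    -- the cell with the coordinate fixed
    refine ⟨(fun i => ⌊v i⌋, Finset.univ.filter fun i => (⌊v i⌋ : ℝ) ≠ v i), ?_, ?_⟩
    · rw [mem_bigD]
      have hfl : (⌊v i⌋ : ℝ) = v i ∧ (⌊v i⌋ = 0 ∨ ⌊v i⌋ = (N : ℤ)) := by
        rcases hi with hi | hi
        · rw [hi]; simp
        · rw [hi]; simp
      refine ⟨?_, i, ?_, hfl.2⟩
      · rw [mem_bigC]
        refine ⟨fun i => ⟨Int.floor_nonneg.2 (hv i).1, ?_⟩, fun i hi => ?_⟩
        · have h1 : (⌊v i⌋ : ℝ) ≤ (N : ℝ) := (Int.floor_le (v i)).trans (hv i).2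
          exact_mod_cast h1
        · simp only [Finset.mem_filter, Finset.mem_univ, true_and] at hi
          have h1 : (⌊v i⌋ : ℝ) < (N : ℝ) :=
            (lt_of_le_of_ne (Int.floor_le (v i)) hi).trans_le (hv i).2
          have h2 : ⌊v i⌋ < (N : ℤ) := by exact_mod_cast h1
          show ⌊v i⌋ + 1 ≤ (N : ℤ)
          omega
      · simp only [Finset.mem_filter, Finset.mem_univ, true_and, not_not]
        exact hfl.1
    · intro i
      refine ⟨fun _ => ⟨Int.floor_le (v i), (Int.lt_floor_add_one (v i)).le⟩, fun hi => ?_⟩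
      simp only [Finset.mem_filter, Finset.mem_univ, true_and, not_not] at hi
      exact hi.symm

/-- every cell of the big cube is contained in a small cube -/
private theorem exists_small {n N : ℕ} (hN : 0 < N) {c : Cel n} (hc : c ∈ bigC n N) :
    ∃ k : Fin n → ℤ, (∀ i, 0 ≤ k i ∧ k i < (N : ℤ)) ∧ cel c ⊆ cel ((k, Finset.univ) : Cel n) := by
  rw [mem_bigC] at hc
  refine ⟨fun i => if c.1 i < (N : ℤ) then c.1 i else (N : ℤ) - 1, fun i => ?_, fun v hv i => ?_⟩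
  · have h1 := hc.1 i
    by_cases h : c.1 i < (N : ℤ)
    · simp only [if_pos h]; omega
    · simp only [if_neg h]; omega
  · refine ⟨fun _ => ?_, fun h => absurd (Finset.mem_univ i) h⟩
    have h1 := hc.1 i
    by_cases h : c.1 i < (N : ℤ)
    · simp only [if_pos h]
      by_cases hi : i ∈ c.2
      · exact (hv i).1 hi
      · rw [(hv i).2 hi]
        exact ⟨le_refl _, by linarith⟩
    · simp only [if_neg h]
      have h2 : c.1 i = (N : ℤ) := by omega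
      have hi : i ∉ c.2 := fun hi => by
        have := hc.2 i hi
        omega
      rw [(hv i).2 hi, h2]
      push_cast
      exact ⟨by linarith, by linarith⟩

/-! ### The property of the extension -/

section

variable {E F : Type} [TopologicalSpace E] [TopologicalSpace F]

/-- the property of a lift on the set `K` -/
private structure Good (X : Set E) (Y : Set F) (f : E → F) (U : Bool → Set E) (V : Bool → Set F)
    {n : ℕ} (N : ℕ) (l : (Fin n → ℤ) → Bool) (β : (Fin n → ℝ) → F) (K : Set (Fin n → ℝ))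
    (Φ : (Fin n → ℝ) → E × (ℝ → F)) : Prop where
  c1 : ContinuousOn (fun u => (Φ u).1) K
  m1 : ∀ u ∈ K, (Φ u).1 ∈ X
  c2 : ContinuousOn (fun q : ℝ × (Fin n → ℝ) => (Φ q.2).2 q.1) (II ×ˢ K)
  m2 : ∀ u ∈ K, ∀ s ∈ II, (Φ u).2 s ∈ Y
  e0 : ∀ u ∈ K, (Φ u).2 0 = β u
  e1 : ∀ u ∈ K, (Φ u).2 1 = f (Φ u).1
  lb : ∀ k : Fin n → ℤ, (∀ i, 0 ≤ k i ∧ k i < (N : ℤ)) → ∀ u ∈ K,
    u ∈ cel ((k, Finset.univ) : Cel n) → (Φ u).1 ∈ U (l k) ∧ ∀ s ∈ II, (Φ u).2 s ∈ V (l k)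

variable {X : Set E} {Y : Set F} {f : E → F} {U : Bool → Set E} {V : Bool → Set F} {n N : ℕ}
  {l : (Fin n → ℤ) → Bool} {β : (Fin n → ℝ) → F}

private theorem good_congr {K : Set (Fin n → ℝ)} {Φ Φ' : (Fin n → ℝ) → E × (ℝ → F)}
    (h : Good X Y f U V N l β K Φ) (he : ∀ u ∈ K, Φ' u = Φ u) : Good X Y f U V N l β K Φ' where
  c1 := h.c1.congr fun u hu => by simp only [he u hu]
  m1 u hu := by rw [he u hu]; exact h.m1 u hu
  c2 := h.c2.congr fun q hq => by simp only [he q.2 hq.2]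
  m2 u hu s hs := by rw [he u hu]; exact h.m2 u hu s hs
  e0 u hu := by rw [he u hu]; exact h.e0 u hu
  e1 u hu := by rw [he u hu]; exact h.e1 u hu
  lb k hk u hu hq := by rw [he u hu]; exact h.lb k hk u hu hq

private theorem good_mono {K K' : Set (Fin n → ℝ)} {Φ : (Fin n → ℝ) → E × (ℝ → F)} (hK : K' ⊆ K)
    (h : Good X Y f U V N l β K Φ) : Good X Y f U V N l β K' Φ where
  c1 := h.c1.mono hK
  m1 u hu := h.m1 u (hK hu)
  c2 := h.c2.mono (prod_mono (le_refl _) hK)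
  m2 u hu s hs := h.m2 u (hK hu) s hs
  e0 u hu := h.e0 u (hK hu)
  e1 u hu := h.e1 u (hK hu)
  lb k hk u hu hq := h.lb k hk u (hK hu) hq

private theorem good_union {K K' : Set (Fin n → ℝ)} {Φ : (Fin n → ℝ) → E × (ℝ → F)}
    (hK : IsCompact K) (hK' : IsCompact K')
    (h : Good X Y f U V N l β K Φ) (h' : Good X Y f U V N l β K' Φ) :
    Good X Y f U V N l β (K ∪ K') Φ where
  c1 := h.c1.union_of_isClosed h'.c1 hK.isClosed hK'.isClosed
  m1 u hu := hu.elim (h.m1 u) (h'.m1 u)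
  c2 := by
    rw [prod_union]
    exact h.c2.union_of_isClosed h'.c2 (isClosed_Icc.prod hK.isClosed) (isClosed_Icc.prod hK'.isClosed)
  m2 u hu := hu.elim (h.m2 u) (h'.m2 u)
  e0 u hu := hu.elim (h.e0 u) (h'.e0 u)
  e1 u hu := hu.elim (h.e1 u) (h'.e1 u)
  lb k hk u hu := hu.elim (h.lb k hk u) (h'.lb k hk u)

end

/-- extension over one cell -/
private theorem extend_cell (hIFC : StIFC) (hCPR : StCPR) (hWEP : StWEP)
    {E F : Type} [TopologicalSpace E] [TopologicalSpace F] {X : Set E} {Y : Set F} {f : E → F}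
    {U : Bool → Set E} {V : Bool → Set F} {n N : ℕ} {l : (Fin n → ℤ) → Bool}
    {β : (Fin n → ℝ) → F} (hN : 0 < N)
    (hW1 : ∀ l, WE (X ∩ U l) (Y ∩ V l) f)
    (hW2 : WE (X ∩ (U true ∩ U false)) (Y ∩ (V true ∩ V false)) f)
    (hβ : ContinuousOn β {v | ∀ i, 0 ≤ v i ∧ v i ≤ (N : ℝ)})
    (hβY : ∀ v : Fin n → ℝ, (∀ i, 0 ≤ v i ∧ v i ≤ (N : ℝ)) → β v ∈ Y)
    (hβl : ∀ k : Fin n → ℤ, (∀ i, 0 ≤ k i ∧ k i < (N : ℤ)) →
      ∀ u ∈ cel ((k, Finset.univ) : Cel n), β u ∈ V (l k))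
    {e : Cel n} (he : e ∈ bigC n N) {Φ : (Fin n → ℝ) → E × (ℝ → F)}
    (hg : Good X Y f U V N l β (cbd e) Φ) :
    ∃ Φ', Good X Y f U V N l β (cel e) Φ' ∧ ∀ u ∈ cbd e, Φ' u = Φ u := by
  obtain ⟨hI1, _, _, _, _⟩ := hIFC n
  have hcb : cbd e ⊆ cel e := fun u hu => hu.1
  have heB : ∀ v ∈ cel e, ∀ i, 0 ≤ v i ∧ v i ≤ (N : ℝ) := by
    intro v hv
    have h : v ∈ spt (bigC n N) := ⟨e, he, hv⟩
    rw [spt_bigC] at h
    exact h
  -- the open sets of the labels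
  obtain ⟨U', V', hWE, hU', hV'⟩ : ∃ (U' : Set E) (V' : Set F), WE (X ∩ U') (Y ∩ V') f ∧
      (∀ x, x ∈ U' ↔ ∀ k : Fin n → ℤ, (∀ i, 0 ≤ k i ∧ k i < (N : ℤ)) →
        cel e ⊆ cel ((k, Finset.univ) : Cel n) → x ∈ U (l k)) ∧
      (∀ y, y ∈ V' ↔ ∀ k : Fin n → ℤ, (∀ i, 0 ≤ k i ∧ k i < (N : ℤ)) →
        cel e ⊆ cel ((k, Finset.univ) : Cel n) → y ∈ V (l k)) := by
    obtain ⟨k0, hk0, hek0⟩ := exists_small hN he
    by_cases hone : ∀ k : Fin n → ℤ, (∀ i, 0 ≤ k i ∧ k i < (N : ℤ)) →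
        cel e ⊆ cel ((k, Finset.univ) : Cel n) → l k = l k0
    · refine ⟨U (l k0), V (l k0), hW1 _, fun x => ⟨fun hx k hk hek => ?_, fun hx => hx k0 hk0 hek0⟩,
        fun y => ⟨fun hy k hk hek => ?_, fun hy => hy k0 hk0 hek0⟩⟩
      · rw [hone k hk hek]; exact hx
      · rw [hone k hk hek]; exact hy
    · push Not at hone
      obtain ⟨k1, hk1, hek1, hne⟩ := hone
      have hall : ∀ b : Bool, ∃ k : Fin n → ℤ, (∀ i, 0 ≤ k i ∧ k i < (N : ℤ)) ∧
          cel e ⊆ cel ((k, Finset.univ) : Cel n) ∧ l k = b := by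
        intro b
        by_cases hb : l k0 = b
        · exact ⟨k0, hk0, hek0, hb⟩
        · refine ⟨k1, hk1, hek1, ?_⟩
          cases h1 : l k0 <;> cases h2 : l k1 <;> cases b <;> simp_all
      refine ⟨U true ∩ U false, V true ∩ V false, hW2, fun x => ⟨fun hx k _ _ => ?_, fun hx => ?_⟩,
        fun y => ⟨fun hy k _ _ => ?_, fun hy => ?_⟩⟩
      · cases l k
        · exact hx.2
        · exact hx.1
      · obtain ⟨k, h1, h2, h3⟩ := hall true
        obtain ⟨k', h1', h2', h3'⟩ := hall false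
        exact ⟨h3 ▸ hx k h1 h2, h3' ▸ hx k' h1' h2'⟩
      · cases l k
        · exact hy.2
        · exact hy.1
      · obtain ⟨k, h1, h2, h3⟩ := hall true
        obtain ⟨k', h1', h2', h3'⟩ := hall false
        exact ⟨h3 ▸ hy k h1 h2, h3' ▸ hy k' h1' h2'⟩
  have hWR := hWEP E F (X ∩ U') (Y ∩ V') f hWE
  obtain ⟨φ, π, hφ, hπ, hπφ, hφe, hφπ, hπb, hφb⟩ := hCPR n e
  -- the lifting problem on the standard cube
  obtain ⟨c, H, hc, hca, hH, hH0, hH1, hHb⟩ := hWR e.2.card (fun u => (Φ (φ u)).1)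
    (fun u => β (φ u)) (fun q => (Φ (φ q.2)).2 q.1)
    ⟨hg.c1.comp hφ.continuousOn fun u hu => hφb u hu, fun u hu =>
      ⟨hg.m1 _ (hφb u hu), (hU' _).2 fun k hk hek =>
        (hg.lb k hk _ (hφb u hu) (hek (hcb (hφb u hu)))).1⟩⟩
    ⟨hβ.comp hφ.continuousOn fun u hu => heB _ (hφe u hu), fun u hu =>
      ⟨hβY _ (heB _ (hφe u hu)), (hV' _).2 fun k hk hek => hβl k hk _ (hek (hφe u hu))⟩⟩
    ⟨(hg.c2.comp (f := fun q : ℝ × (Fin e.2.card → ℝ) => (q.1, φ q.2))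
        (continuous_fst.prodMk (hφ.comp continuous_snd)).continuousOn
        fun q hq => ⟨hq.1, hφb _ hq.2⟩),
      fun q hq => ⟨hg.m2 _ (hφb _ hq.2) _ hq.1, (hV' _).2 fun k hk hek =>
        (hg.lb k hk _ (hφb _ hq.2) (hek (hcb (hφb _ hq.2)))).2 _ hq.1⟩⟩
    (fun u hu => hg.e0 _ (hφb u hu)) (fun u hu => hg.e1 _ (hφb u hu))
  -- the new map
  let Ψ : (Fin n → ℝ) → E × (ℝ → F) := fun v => (c (π v), fun s => H (s, π v))
  have hΨ1 : ∀ v ∈ cbd e, (Ψ v).1 = (Φ v).1 := by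
    intro v hv
    show c (π v) = (Φ v).1
    rw [hca (π v) (hπb v hv), (hφπ v (hcb hv)).2]
  have hΨ2 : ∀ v ∈ cbd e, ∀ s ∈ II, (Ψ v).2 s = (Φ v).2 s := by
    intro v hv s hs
    show H (s, π v) = (Φ v).2 s
    rw [hHb s hs (π v) (hπb v hv), (hφπ v (hcb hv)).2]
  let Φ' : (Fin n → ℝ) → E × (ℝ → F) := fun v => if v ∈ cbd e then Φ v else Ψ v
  have hb : ∀ v ∈ cbd e, Φ' v = Φ v := fun v hv => by
    simp only [Φ', if_pos hv]
  have h1 : ∀ v ∈ cel e, (Φ' v).1 = c (π v) := by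
    intro v _
    by_cases hv' : v ∈ cbd e
    · rw [hb v hv']
      exact (hΨ1 v hv').symm
    · simp only [Φ', if_neg hv', Ψ]
  have h2 : ∀ v ∈ cel e, ∀ s ∈ II, (Φ' v).2 s = H (s, π v) := by
    intro v _ s hs
    by_cases hv' : v ∈ cbd e
    · rw [hb v hv']
      exact (hΨ2 v hv' s hs).symm
    · simp only [Φ', if_neg hv', Ψ]
  have h0 : (0 : ℝ) ∈ II := ⟨le_refl _, zero_le_one⟩
  have h1' : (1 : ℝ) ∈ II := ⟨zero_le_one, le_refl _⟩
  refine ⟨Φ', ⟨?_, ?_, ?_, ?_, ?_, ?_, ?_⟩, hb⟩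
  · refine ContinuousOn.congr (f := fun v => c (π v)) ?_ h1
    exact hc.1.comp hπ.continuousOn fun v hv => (hφπ v hv).1
  · intro v hv
    rw [h1 v hv]
    exact (hc.2 (hφπ v hv).1).1
  · refine ContinuousOn.congr (f := fun q : ℝ × (Fin n → ℝ) => H (q.1, π q.2)) ?_
      fun q hq => h2 q.2 hq.2 q.1 hq.1
    exact hH.1.comp (f := fun q : ℝ × (Fin n → ℝ) => (q.1, π q.2))
      (continuous_fst.prodMk (hπ.comp continuous_snd)).continuousOn
      fun q hq => ⟨hq.1, (hφπ _ hq.2).1⟩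
  · intro v hv s hs
    rw [h2 v hv s hs]
    exact (hH.2 (show (s, π v) ∈ II ×ˢ Cb e.2.card from ⟨hs, (hφπ v hv).1⟩)).1
  · intro v hv
    rw [h2 v hv 0 h0, hH0 _ (hφπ v hv).1, (hφπ v hv).2]
  · intro v hv
    rw [h2 v hv 1 h1', hH1 _ (hφπ v hv).1, h1 v hv]
  · intro k hk v hv hq
    by_cases hek : cel e ⊆ cel ((k, Finset.univ) : Cel n)
    · refine ⟨?_, fun s hs => ?_⟩
      · rw [h1 v hv]
        exact (hU' _).1 (hc.2 (hφπ v hv).1).2 k hk hek
      · rw [h2 v hv s hs]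
        exact (hV' _).1 (hH.2 (show (s, π v) ∈ II ×ˢ Cb e.2.card from ⟨hs, (hφπ v hv).1⟩)).2 k hk hek
    · have hv' : v ∈ cbd e := by
        by_contra hcon
        exact hek (hI1 e _ v hv hcon hq)
      rw [hb v hv']
      exact hg.lb k hk v hv' hq

theorem hGLU : StLBL → StCEL → StIFC → StCPR → StWEP → StGLU := by
  intro hLBL hCEL hIFC hCPR hWEP E F _ _ X Y f U₁ U₂ V₁ V₂ hU₁ hU₂ hV₁ hV₂ hX hY hW₁ hW₂ hW₁₂
  let U : Bool → Set E := fun b => cond b U₁ U₂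
  let V : Bool → Set F := fun b => cond b V₁ V₂
  have hUo : ∀ b, IsOpen (U b) := fun b => by cases b <;> assumption
  have hVo : ∀ b, IsOpen (V b) := fun b => by cases b <;> assumption
  have hW1 : ∀ b, WE (X ∩ U b) (Y ∩ V b) f := fun b => by cases b <;> assumption
  have hW2 : WE (X ∩ (U true ∩ U false)) (Y ∩ (V true ∩ V false)) f := hW₁₂
  have hXU : ∀ x ∈ X, ∃ b, x ∈ U b := fun x hx => (hX hx).elim (fun h => ⟨true, h⟩) fun h => ⟨false, h⟩
  have hmp : ∀ b, MapsTo f (X ∩ U b) (V b) := fun b x hx => ((hW1 b).1.2 hx).2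
  -- f is a map
  refine ⟨⟨?_, ?_⟩, ?_⟩
  · intro x hx
    obtain ⟨b, hb⟩ := hXU x hx
    have h1 := (hW1 b).1.1 x ⟨hx, hb⟩
    exact h1.mono_of_mem_nhdsWithin (inter_mem_nhdsWithin X ((hUo b).mem_nhds hb))
  · intro x hx
    obtain ⟨b, hb⟩ := hXU x hx
    exact ((hW1 b).1.2 ⟨hx, hb⟩).1
  intro n a b ha hb hab
  obtain ⟨N, hN, l, hl⟩ := hLBL E F X Y f U V hUo hVo hX hY hmp n a b ha hb hab
  have hN' : (0 : ℝ) < (N : ℝ) := by exact_mod_cast hN
  -- scaling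
  let σ : (Fin n → ℝ) → (Fin n → ℝ) := fun v i => v i / N
  let τ : (Fin n → ℝ) → (Fin n → ℝ) := fun v i => N * v i
  have hσ : Continuous σ := continuous_pi fun i => (continuous_apply i).div_const _
  have hτ : Continuous τ := continuous_pi fun i => continuous_const.mul (continuous_apply i)
  have hστ : ∀ u, σ (τ u) = u := fun u => by
    funext i
    simp only [σ, τ]
    field_simp
  have hσB : ∀ v : Fin n → ℝ, (∀ i, 0 ≤ v i ∧ v i ≤ (N : ℝ)) → σ v ∈ Cb n := fun v hv i =>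
    ⟨div_nonneg (hv i).1 hN'.le, (div_le_one hN').2 (hv i).2⟩
  have hσD : ∀ v ∈ spt (bigD n N), σ v ∈ Bd n := by
    intro v hv
    rw [spt_bigD] at hv
    obtain ⟨hv, i, hi⟩ := hv
    refine ⟨hσB v hv, i, ?_⟩
    rcases hi with hi | hi
    · left; simp only [σ, hi, zero_div]
    · right; simp only [σ, hi]; exact div_self hN'.ne'
  have hτB : ∀ u ∈ Cb n, ∀ i, 0 ≤ τ u i ∧ τ u i ≤ (N : ℝ) := fun u hu i =>
    ⟨mul_nonneg hN'.le (hu i).1, by
      have := mul_le_mul_of_nonneg_left (hu i).2 hN'.le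
      simpa [τ] using this⟩
  have hτC : ∀ u ∈ Cb n, τ u ∈ spt (bigC n N) := fun u hu => by
    rw [spt_bigC]; exact hτB u hu
  have hτD : ∀ u ∈ Bd n, τ u ∈ spt (bigD n N) := fun u hu => by
    rw [spt_bigD]
    obtain ⟨hu, i, hi⟩ := hu
    refine ⟨hτB u hu, i, ?_⟩
    rcases hi with hi | hi
    · left; simp only [τ, hi, mul_zero]
    · right; simp only [τ, hi, mul_one]
  have hlq : ∀ k : Fin n → ℤ, ∀ u ∈ cel ((k, Finset.univ) : Cel n), ∀ i,
      (k i : ℝ) ≤ N * σ u i ∧ N * σ u i ≤ k i + 1 := by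
    intro k u hu i
    have h1 := (hu i).1 (Finset.mem_univ i)
    have h2 : (N : ℝ) * σ u i = u i := by
      simp only [σ]
      field_simp
    rw [h2]
    exact h1
  -- the initial map
  have hgood0 : Good X Y f U V N l (fun v => b (σ v)) (spt (bigD n N))
      (fun v => (a (σ v), fun _ => b (σ v))) := by
    have hDB : ∀ v ∈ spt (bigD n N), ∀ i, 0 ≤ v i ∧ v i ≤ (N : ℝ) := by
      intro v hv
      rw [spt_bigD] at hv
      exact hv.1
    refine ⟨?_, ?_, ?_, ?_, ?_, ?_, ?_⟩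
    · exact ha.1.comp hσ.continuousOn hσD
    · exact fun u hu => ha.2 (hσD u hu)
    · exact hb.1.comp (f := fun q : ℝ × (Fin n → ℝ) => σ q.2)
        (hσ.comp continuous_snd).continuousOn fun q hq => hσB _ (hDB _ hq.2)
    · exact fun u hu s _ => hb.2 (hσB _ (hDB _ hu))
    · exact fun u _ => rfl
    · exact fun u hu => hab _ (hσD u hu)
    · intro k hk u hu hq
      have h := hl k hk (σ u) (hlq k u hq)
      exact ⟨h.2 (hσD u hu), fun s _ => h.1⟩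
  obtain ⟨Φ, hΦ, hΦD⟩ := hCEL n (bigC n N) (bigD n N) (cx_bigC n N) (cx_bigD n N) (bigD_sub n N)
    (E × (ℝ → F)) (fun K Φ => Good X Y f U V N l (fun v => b (σ v)) K Φ)
    (fun K Φ Φ' h he => good_congr h he) (fun K K' Φ hK hK' h h' => good_union hK hK' h h')
    (fun K K' Φ hK h => good_mono hK h)
    (fun e he _ Φ hg => extend_cell hIFC hCPR hWEP hN hW1 hW2
      (hb.1.comp hσ.continuousOn fun v hv => hσB v hv) (fun v hv => hb.2 (hσB v hv))
      (fun k hk u hu => (hl k hk (σ u) (hlq k u hu)).1) he hg)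
    (fun v => (a (σ v), fun _ => b (σ v))) hgood0
  refine ⟨fun u => (Φ (τ u)).1, fun q => (Φ (τ q.2)).2 q.1, ⟨?_, ?_⟩, ?_, ⟨?_, ?_⟩, ?_, ?_, ?_⟩
  · exact hΦ.c1.comp hτ.continuousOn hτC
  · exact fun u hu => hΦ.m1 _ (hτC u hu)
  · intro u hu
    show (Φ (τ u)).1 = a u
    rw [hΦD _ (hτD u hu), hστ]
  · exact hΦ.c2.comp (f := fun q : ℝ × (Fin n → ℝ) => (q.1, τ q.2))
      (continuous_fst.prodMk (hτ.comp continuous_snd)).continuousOn
      fun q hq => ⟨hq.1, hτC _ hq.2⟩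
  · exact fun q hq => hΦ.m2 _ (hτC _ hq.2) _ hq.1
  · intro u hu
    show (Φ (τ u)).2 0 = b u
    rw [hΦ.e0 _ (hτC u hu), hστ]
  · intro u hu
    exact hΦ.e1 _ (hτC u hu)
  · intro s _ u hu
    show (Φ (τ u)).2 s = b u
    rw [hΦD _ (hτD u hu), hστ]

end Pool.Agent.Helper60.FX
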