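import Pool.Agent.Helper71.FX.St

/-!
# Project FX (MP_d629b1_an), module LB
-/

open MeasureTheory Filter Topology
open scoped FourierTransform RealInnerProductSpace Matrix ComplexConjugate ENNReal

noncomputable section

namespace Pool.Agent.Helper60.FX

open Wav Pool.Agent.Helper71.FX

private def hh {n : ℕ} (ψ : E n → ℂ) (a : Fin n) (y : E n) : ℂ := ((y.ofLp a : ℝ) : ℂ) * ψ y

private theorem hh_memLp (hLX : StLX) {n L : ℕ} {N : ℝ} {A : Matrix (Fin n) (Fin n) ℝ}
    {ψ : Fin L → E n → ℂ} (hG : Good N A ψ) (l : Fin L) (a : Fin n) :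
    MemLp (hh (ψ l) a) 2 (volume : Measure (E n)) := by
  have h := hLX n L N A ψ hG (l, 0, 0) (ek a) 0
  have h0 : (fun x => ((⟪ek a, x - 0⟫ : ℝ) : ℂ) * aff A ψ (l, 0, 0) x) = hh (ψ l) a := by
    funext x
    have h1 : ⟪ek a, x - 0⟫ = x.ofLp a := by
      rw [sub_zero]
      unfold ek
      simp [EuclideanSpace.inner_single_left]
    have h3 : ivec (0 : Fin n → ℤ) = (0 : E n) := by
      ext i
      simp [ivec]
    have h2 : aff A ψ (l, 0, 0) x = ψ l x := by
      unfold aff affine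
      simp only [Int.cast_zero, zero_div, Real.rpow_zero, Complex.ofReal_one, zpow_zero,
        act_one, h3, sub_zero, one_mul]
    rw [h1, h2]
    rfl
  rwa [h0] at h

private theorem aff_int {n : ℕ} {A : Matrix (Fin n) (Fin n) ℝ} (hA : A.det ≠ 0) (h : E n → ℂ)
    (j : ℤ) (k : Fin n → ℤ) :
    ∫ x, conj (affine A h j k x) * affine A h j k x = ∫ y, conj (h y) * h y := by
  have hj : (A ^ j).det ≠ 0 := ((isUnit_iff_ne_zero.2 hA).det_zpow j).ne_zero
  have hD : 0 < |A.det| := abs_pos.2 hA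
  have e1 : ∀ x, conj (affine A h j k x) * affine A h j k x =
      ((|A.det| ^ j : ℝ) : ℂ) *
        (fun y => conj (h (y - ivec k)) * h (y - ivec k)) (act (A ^ j) x) := by
    intro x
    unfold affine
    rw [map_mul, Complex.conj_ofReal]
    have h1 : ((|A.det| ^ ((j : ℝ) / 2) : ℝ) : ℂ) * ((|A.det| ^ ((j : ℝ) / 2) : ℝ) : ℂ) =
        ((|A.det| ^ j : ℝ) : ℂ) := by
      rw [← Complex.ofReal_mul, ← Real.rpow_add hD, add_halves, Real.rpow_intCast]
    rw [← h1]
    ring
  rw [integral_congr_ae (ae_of_all _ e1), integral_const_mul,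
    integral_act hj (fun y => conj (h (y - ivec k)) * h (y - ivec k)), det_zpow' hA, abs_zpow,
    ← mul_assoc,
    ← Complex.ofReal_mul, mul_inv_cancel₀ (zpow_pos hD j).ne', Complex.ofReal_one, one_mul]
  exact integral_sub_right_eq_self (fun y => conj (h y) * h y) (ivec k)

theorem pLB (hBS : StBS) (hLX : StLX) : StLB := by
  intro n L N A ψ hG
  have hA := expansive_det hG.exp
  obtain ⟨b, hb, _⟩ := hBS n L N A ψ hG
  refine ⟨∑ l, ∑ a, ‖∫ y, conj (hh (ψ l) a y) * hh (ψ l) a y‖,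
    Finset.sum_nonneg fun l _ => Finset.sum_nonneg fun a _ => norm_nonneg _, ?_⟩
  intro p a
  have hY : MemLp (affine A (hh (ψ p.1) a) p.2.1 p.2.2) 2 (volume : Measure (E n)) :=
    affine_memLp hA (hh_memLp hLX hG _ _) _ _
  set X := hY.toLp _ with hX
  have e1 : ∀ q, axd A ψ p q a = inner ℂ X (b q) := by
    intro q
    rw [L2.inner_def]
    unfold axd
    refine (integral_congr_ae ?_).symm
    filter_upwards [hY.coeFn_toLp, hb q] with x h1 h2
    rw [RCLike.inner_apply, h1, h2]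
    have h3 : affine A (hh (ψ p.1) a) p.2.1 p.2.2 x =
        (((act (A ^ p.2.1) x - ivec p.2.2).ofLp a : ℝ) : ℂ) * aff A ψ p x := by
      unfold affine hh aff affine
      ring
    rw [h3]
    ring
  have e2 : ‖X‖ ^ 2 ≤ ∑ l, ∑ a, ‖∫ y, conj (hh (ψ l) a y) * hh (ψ l) a y‖ := by
    have h1 : inner ℂ X X = ∫ y, conj (hh (ψ p.1) a y) * hh (ψ p.1) a y := by
      rw [L2.inner_def, ← aff_int hA (hh (ψ p.1) a) p.2.1 p.2.2]
      refine integral_congr_ae ?_
      filter_upwards [hY.coeFn_toLp] with x h1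
      rw [RCLike.inner_apply, h1, mul_comm]
    have h2 : ‖X‖ ^ 2 = ‖(inner ℂ X X : ℂ)‖ := by
      rw [inner_self_eq_norm_sq_to_K]
      simp
    rw [h2, h1]
    refine le_trans ?_ (Finset.single_le_sum
      (f := fun l => ∑ a, ‖∫ y, conj (hh (ψ l) a y) * hh (ψ l) a y‖)
      (fun l _ => Finset.sum_nonneg fun a _ => norm_nonneg _) (Finset.mem_univ p.1))
    exact Finset.single_le_sum
      (f := fun a => ‖∫ y, conj (hh (ψ p.1) a y) * hh (ψ p.1) a y‖)
      (fun a _ => norm_nonneg _) (Finset.mem_univ a)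
  have e3 : (fun q => ‖axd A ψ p q a‖ ^ 2) = fun q => ‖(inner ℂ (b q) X : ℂ)‖ ^ 2 := by
    funext q
    rw [e1, norm_inner_symm]
  rw [e3]
  exact ⟨b.orthonormal.inner_products_summable X,
    (b.orthonormal.tsum_inner_products_le X).trans e2⟩

end Pool.Agent.Helper60.FX
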