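import Pool.Agent.Helper9.FX.StP

/-!
# Project FX, section T4, module PHB: the second homotopy
-/

set_option autoImplicit false

namespace Pool.Agent.Helper60.FX

open Set Complex Pool.Agent.Helper9.FX
open Pool.Agent.Helper84.FX (Mp WE Htp II)
open Pool.Agent.Helper72.FX (nu J0 SS gg)

private theorem cont_three {X Y : Type} [TopologicalSpace X] [TopologicalSpace Y] {f : X → Y}
    {S C₁ C₂ C₃ : Set X} (h₁ : IsClosed C₁) (h₂ : IsClosed C₂) (h₃ : IsClosed C₃)
    (hS : S ⊆ C₁ ∪ C₂ ∪ C₃) (f₁ : ContinuousOn f (S ∩ C₁)) (f₂ : ContinuousOn f (S ∩ C₂))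
    (f₃ : ContinuousOn f (S ∩ C₃)) : ContinuousOn f S := by
  intro x hx
  have key : ∀ C : Set X, IsClosed C → ContinuousOn f (S ∩ C) →
      ContinuousWithinAt f (S ∩ C) x := by
    intro C hC hf
    by_cases h : x ∈ C
    · exact hf x ⟨hx, h⟩
    · exact continuousWithinAt_of_notMem_closure fun h' => h ((closure_minimal inter_subset_right hC) h')
  have h : ContinuousWithinAt f ((S ∩ C₁ ∪ S ∩ C₂) ∪ S ∩ C₃) x :=
    ((key _ h₁ f₁).union (key _ h₂ f₂)).union (key _ h₃ f₃)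
  refine h.mono fun y hy => ?_
  rcases hS hy with (h | h) | h
  · exact Or.inl (Or.inl ⟨hy, h⟩)
  · exact Or.inl (Or.inr ⟨hy, h⟩)
  · exact Or.inr ⟨hy, h⟩

/-- the homotopy -/
private noncomputable def Hh (p : ℝ × EP) : EQ :=
  if p.2.2.2.2 ≤ 0 then (p.2.2.2.1, -2 / p.2.2.2.1, 2 / p.2.2.2.1, 0)
  else if p.2.2.2.2 < 1 then
    cS p.2.2.2.1 (Sk (p.1 : ℂ) (p.2.2.2.2 : ℂ) p.2.1 p.2.2.1 p.2.2.2.1)
  else (p.2.2.2.1, 0, 0, 0)

private theorem nk_zero (k : ℂ) : nk k 0 = 1 := by simp [nk]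

private theorem nk_one (k : ℂ) : nk k 1 = 1 := by simp [nk]

private theorem nk_one' (u : ℂ) : nk 1 u = 1 := by simp [nk]

private theorem cS_neg (t : ℂ) (ht : t ≠ 0) : cS t (-(J0 t)) = (t, -2 / t, 2 / t, 0) := by
  simp only [cS, J0, Matrix.neg_apply, Matrix.of_apply, Matrix.cons_val', Matrix.cons_val_zero,
    Matrix.cons_val_one, Matrix.empty_val', Matrix.cons_val_fin_one, Prod.mk.injEq, true_and]
  refine ⟨?_, ?_, ?_⟩
  · norm_num
  · field_simp
    ring
  · simp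

private theorem cS_pos (t : ℂ) : cS t (J0 t) = (t, 0, 0, 0) := by
  simp [cS, J0]

private theorem Sk_zero (h : StPGK) (k a b t : ℂ) : Sk k 0 a b t = -(J0 t) := by
  simp only [Sk, nk_zero, h.2.1 k a b t, inv_one, one_smul, one_mul, Matrix.transpose_one, mul_one]

private theorem Sk_one (h : StPGK) (k a b t : ℂ) (hn : nu a b t = 0) : Sk k 1 a b t = J0 t := by
  simp only [Sk, nk_one, h.2.2.1 k a b t hn, inv_one, one_smul, neg_neg]

/-- the value on `ν = 0` -/
private theorem Hh_nu (h : StPGK) {U : Set ℂ} (hU : ∀ t ∈ U, t ≠ 0) (p : ℝ × EP)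
    (hp : p.2 ∈ PU U) (hn : nu p.2.1 p.2.2.1 p.2.2.2.1 = 0) :
    Hh p = cS p.2.2.2.1 (Sk (p.1 : ℂ) (p.2.2.2.2 : ℂ) p.2.1 p.2.2.1 p.2.2.2.1) := by
  obtain ⟨ht, h0, h1, _⟩ := hp
  have ht' := hU _ ht
  by_cases hr : p.2.2.2.2 ≤ 0
  · have hr0 : p.2.2.2.2 = 0 := le_antisymm hr h0
    rw [Hh, if_pos hr, hr0, Complex.ofReal_zero, Sk_zero h, cS_neg _ ht']
  · by_cases hr1 : p.2.2.2.2 < 1
    · rw [Hh, if_neg hr, if_pos hr1]
    · have hr2 : p.2.2.2.2 = 1 := le_antisymm h1 (not_lt.1 hr1)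
      rw [Hh, if_neg hr, if_neg hr1, hr2, Complex.ofReal_one, Sk_one h _ _ _ _ hn, cS_pos]

private theorem Sk_cont (h : StPGK) (i j : Fin 2) : ContinuousOn (fun p : ℝ × EP =>
    Sk (p.1 : ℂ) (p.2.2.2.2 : ℂ) p.2.1 p.2.2.1 p.2.2.2.1 i j) (II ×ˢ univ) := by
  have h7 := h.2.2.2.2.2.2.1
  have h8 := h.2.2.2.2.2.2.2 i j
  have hm : Continuous fun p : ℝ × EP =>
      ((p.1 : ℂ), (p.2.2.2.2 : ℂ), p.2.1, p.2.2.1, p.2.2.2.1) := by fun_prop
  have hG := h8.comp hm
  have hnk : Continuous fun p : ℝ × EP => nk (p.1 : ℂ) (p.2.2.2.2 : ℂ) := by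
    simp only [nk]
    fun_prop
  have hne : ∀ p ∈ (II ×ˢ univ : Set (ℝ × EP)), nk (p.1 : ℂ) (p.2.2.2.2 : ℂ) ≠ 0 := by
    intro p hp
    obtain ⟨m, hm1, hm2⟩ := h7 p.1 p.2.2.2.2 hp.1.1 hp.1.2
    rw [hm2]
    intro h0
    have : m = 0 := by exact_mod_cast h0
    linarith
  have hfin := ((hnk.continuousOn (s := (II ×ˢ univ : Set (ℝ × EP)))).inv₀ hne).mul
    hG.continuousOn |>.neg
  refine hfin.congr fun p _ => ?_
  simp only [Sk, Matrix.neg_apply, Matrix.smul_apply, smul_eq_mul, Function.comp_apply, Pi.neg_apply,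
    Pi.mul_apply, Pi.inv_apply]

private theorem PU_t_cont {U : Set ℂ} (hU : ∀ t ∈ U, t ≠ 0) (g : ℝ × EP → ℂ)
    (hg : ContinuousOn g (II ×ˢ PU U)) :
    ContinuousOn (fun p : ℝ × EP => g p / p.2.2.2.1) (II ×ˢ PU U) :=
  hg.div (by fun_prop) fun p hp => hU _ hp.2.1

private theorem H_cont (h : StPGK) {U : Set ℂ} (hU : ∀ t ∈ U, t ≠ 0) :
    ContinuousOn Hh (II ×ˢ PU U) := by
  have hr : Continuous fun p : ℝ × EP => p.2.2.2.2 := by fun_prop
  have hc1 : IsClosed {p : ℝ × EP | p.2.2.2.2 ≤ 0} := isClosed_le hr continuous_const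
  have hc2 : IsClosed {p : ℝ × EP | 1 ≤ p.2.2.2.2} := isClosed_le continuous_const hr
  have hnu : Continuous fun p : ℝ × EP => nu p.2.1 p.2.2.1 p.2.2.2.1 := by
    simp only [nu]
    fun_prop
  have hc3 : IsClosed {p : ℝ × EP | nu p.2.1 p.2.2.1 p.2.2.2.1 = 0} :=
    isClosed_eq hnu continuous_const
  have htc : Continuous fun p : ℝ × EP => p.2.2.2.1 := by fun_prop
  refine cont_three hc1 hc2 hc3 ?_ ?_ ?_ ?_
  · intro p hp
    by_cases h0 : p.2.2.2.2 ≤ 0
    · exact Or.inl (Or.inl h0)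
    · by_cases h1 : p.2.2.2.2 < 1
      · exact Or.inr (hp.2.2.2.2 (not_le.1 h0) h1)
      · exact Or.inl (Or.inr (not_lt.1 h1))
  · have hA : ContinuousOn (fun p : ℝ × EP =>
        ((p.2.2.2.1, -2 / p.2.2.2.1, 2 / p.2.2.2.1, 0) : EQ)) (II ×ˢ PU U) :=
      htc.continuousOn.prodMk ((PU_t_cont hU (fun _ => -2) continuousOn_const).prodMk
        ((PU_t_cont hU (fun _ => 2) continuousOn_const).prodMk continuousOn_const))
    refine (hA.mono inter_subset_left).congr fun p hp => ?_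
    have h1 : p.2.2.2.2 ≤ 0 := hp.2
    rw [Hh, if_pos h1]
  · have hA : ContinuousOn (fun p : ℝ × EP => ((p.2.2.2.1, 0, 0, 0) : EQ)) (II ×ˢ PU U) :=
      htc.continuousOn.prodMk continuousOn_const
    refine (hA.mono inter_subset_left).congr fun p hp => ?_
    have h1 : (1 : ℝ) ≤ p.2.2.2.2 := hp.2
    rw [Hh, if_neg (by linarith), if_neg (not_lt.2 h1)]
  · have hsub : II ×ˢ PU U ⊆ (II ×ˢ univ : Set (ℝ × EP)) := prod_mono (le_refl _) (subset_univ _)
    have h00 := (Sk_cont h 0 0).mono hsub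
    have h11 := (Sk_cont h 1 1).mono hsub
    have h01 := (Sk_cont h 0 1).mono hsub
    have hA : ContinuousOn (fun p : ℝ × EP =>
        cS p.2.2.2.1 (Sk (p.1 : ℂ) (p.2.2.2.2 : ℂ) p.2.1 p.2.2.1 p.2.2.2.1)) (II ×ˢ PU U) := by
      simp only [cS]
      refine htc.continuousOn.prodMk ((PU_t_cont hU _ (h00.sub continuousOn_const)).prodMk
        (ContinuousOn.prodMk ?_ (PU_t_cont hU _ h01)))
      exact (h11.add htc.continuousOn).div (htc.pow 2).continuousOn fun p hp =>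
        pow_ne_zero 2 (hU _ hp.2.1)
    refine (hA.mono inter_subset_left).congr fun p hp => ?_
    exact Hh_nu h hU p hp.1.2 hp.2

theorem hPHB : StPMX → StPGE → StPGK → StPHB := by
  intro hM hE h U hU
  have h7 := h.2.2.2.2.2.2.1
  have hcS := hM.2.2.2.2.2
  have hne : ∀ k u : ℝ, 0 ≤ k → k ≤ 1 → nk (k : ℂ) (u : ℂ) ≠ 0 := by
    intro k u h0 h1
    obtain ⟨m, hm1, hm2⟩ := h7 k u h0 h1
    rw [hm2]
    intro h0
    have : m = 0 := by exact_mod_cast h0
    linarith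
  refine ⟨Hh, ⟨H_cont h hU, ?_⟩, ?_, ?_⟩
  · intro p hp
    have ht := hp.2.1
    have ht' := hU _ ht
    by_cases h0 : p.2.2.2.2 ≤ 0
    · rw [Hh, if_pos h0]
      refine ⟨ht, ?_⟩
      show (2 / p.2.2.2.1) * (1 + p.2.2.2.1 * (-2 / p.2.2.2.1)) = -2 / p.2.2.2.1 + 0 ^ 2
      field_simp
      ring
    · by_cases h1 : p.2.2.2.2 < 1
      · have hn := hp.2.2.2.2 (not_le.1 h0) h1
        rw [Hh, if_neg h0, if_pos h1]
        have hk := hne p.1 p.2.2.2.2 hp.1.1 hp.1.2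
        exact hcS U _ _ ht ht' (h.2.2.2.2.1 _ _ _ _ _) (h.2.2.2.2.2.1 _ _ _ _ _ hn hk)
      · rw [Hh, if_neg h0, if_neg h1]
        refine ⟨ht, ?_⟩
        show (0 : ℂ) * (1 + p.2.2.2.1 * 0) = 0 + 0 ^ 2
        ring
  · intro q hq
    have ht' := hU _ hq.1
    by_cases h0 : q.2.2.2 ≤ 0
    · simp only [Hh, Ph2, if_pos h0]
    · by_cases h1 : q.2.2.2 < 1
      · have hn := hq.2.2.2 (not_le.1 h0) h1
        have hk := hne 0 q.2.2.2 le_rfl zero_le_one
        rw [Complex.ofReal_zero] at hk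
        simp only [Hh, Ph2, if_neg h0, if_pos h1, Complex.ofReal_zero]
        rw [h.2.2.2.1 _ _ _ _ hn hk]
        have hN : nk 0 (q.2.2.2 : ℂ) = al (q.2.2.2 : ℂ) ^ 2 + be (q.2.2.2 : ℂ) ^ 2 := by
          simp only [nk, al, be]
          ring
        generalize hNN : nk 0 (q.2.2.2 : ℂ) = N at hk hN ⊢
        generalize al (q.2.2.2 : ℂ) = A at hN ⊢
        generalize be (q.2.2.2 : ℂ) = B at hN ⊢
        generalize q.2.2.1 = t at ht' ⊢
        generalize q.2.1 = b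
        generalize q.1 = a
        have mJ00 : (M1 a b t * J0 t) 0 0 = 1 + t * b := by
          simp [J0, M1, Matrix.mul_apply, Fin.sum_univ_two]
        have mJ11 : (M1 a b t * J0 t) 1 1 = t * (1 + t * b) := by
          simp [J0, M1, Matrix.mul_apply, Fin.sum_univ_two]
          ring
        have mJ01 : (M1 a b t * J0 t) 0 1 = t * a := by
          simp [J0, M1, Matrix.mul_apply, Fin.sum_univ_two]
          ring
        have e00 : (-(N⁻¹ • ((A ^ 2 - B ^ 2) • J0 t + (2 * I * A * B) • (M1 a b t * J0 t)))) 0 0 =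
            -(N⁻¹ * ((A ^ 2 - B ^ 2) + 2 * I * A * B * (1 + t * b))) := by
          simp only [Matrix.neg_apply, Matrix.smul_apply, Matrix.add_apply, mJ00, smul_eq_mul]
          simp only [J0, Matrix.of_apply, Matrix.cons_val', Matrix.cons_val_zero,
            Matrix.cons_val_one, Matrix.empty_val', Matrix.cons_val_fin_one]
          ring
        have e11 : (-(N⁻¹ • ((A ^ 2 - B ^ 2) • J0 t + (2 * I * A * B) • (M1 a b t * J0 t)))) 1 1 =
            -(N⁻¹ * (-(A ^ 2 - B ^ 2) * t + 2 * I * A * B * (t * (1 + t * b)))) := by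
          simp only [Matrix.neg_apply, Matrix.smul_apply, Matrix.add_apply, mJ11, smul_eq_mul]
          simp only [J0, Matrix.of_apply, Matrix.cons_val', Matrix.cons_val_zero,
            Matrix.cons_val_one, Matrix.empty_val', Matrix.cons_val_fin_one]
          ring
        have e01 : (-(N⁻¹ • ((A ^ 2 - B ^ 2) • J0 t + (2 * I * A * B) • (M1 a b t * J0 t)))) 0 1 =
            -(N⁻¹ * (2 * I * A * B * (t * a))) := by
          simp only [Matrix.neg_apply, Matrix.smul_apply, Matrix.add_apply, mJ01, smul_eq_mul]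
          simp only [J0, Matrix.of_apply, Matrix.cons_val', Matrix.cons_val_zero,
            Matrix.cons_val_one, Matrix.empty_val', Matrix.cons_val_fin_one]
          ring
        simp only [cS, e00, e11, e01, Prod.mk.injEq, true_and]
        refine ⟨?_, ?_, ?_⟩
        · field_simp
          rw [hN]
          ring
        · field_simp
          rw [hN]
          ring
        · field_simp
      · simp only [Hh, Ph2, if_neg h0, if_neg h1]
  · intro q hq
    by_cases h0 : q.2.2.2 ≤ 0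
    · simp only [Hh, Ph1, if_pos h0]
    · by_cases h1 : q.2.2.2 < 1
      · have hn := hq.2.2.2 (not_le.1 h0) h1
        simp only [Hh, Ph1, if_neg h0, if_pos h1, Complex.ofReal_one]
        rw [Sk, nk_one', inv_one, one_smul, SS, hE _ _ _ _ hn]
      · simp only [Hh, Ph1, if_neg h0, if_neg h1]

end Pool.Agent.Helper60.FX
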